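import Pool.Agent.K9h83.FF.Eth
import Pool.Agent.K9h83.FF.SaveP
import Pool.Agent.K9h83.FF.Save
import Pool.Agent.K9h83.FF.Sub

/-!
# Subexponential algorithms for the firefighter problem on trees

Sketch of the proofs.

*Saving `k` vertices.*  A strategy is a choice of at most one vertex in each depth.  If no single
subtree has `k` vertices, then a solution with the least maximal depth `m` uses all depths
`1, ..., m`; an exchange along the path to its deepest vertex shows that the subtree chosen at the
depth `j` has at least `m - j + 1` vertices, and without the deepest vertex fewer than `k` vertices
are saved, so that `m (m + 1) ≤ 2 k`.  A second exchange shows that at each depth one of the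
`(k + 1) ^ 2` vertices with the largest subtrees can be chosen.  All choices are tried.

*The lower bounds.*  Let a formula with `N` variables and `N` clauses be given.  The variables are
split into `w = O(1)` blocks of `r = N / O(1)` variables.  For each block there is a complete
binary tree with `2 ^ r` leaves (the selected values), stretched and shifted so that in the steps
`2 s + 1`, `2 s + 2` of the fire a value for the variable `s` is selected: of the two children of
the burning vertex one has to be protected, and a heavy pendant gadget below the other one has to
be protected in the next step.  Then all `w` paths are prolonged.  At the step `2 w r + 3 j` three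
heavy gadgets for the clause `j` hang on the paths, at distance `3` for the literals which are true
under the selected values and at distance `2` for the others; three steps suffice for the three
gadgets if and only if not all three literals are false.  Every firefighter is needed for the
gadgets, so that one path in each block burns down.  The number of burning vertices and the number
of steps are `O(N)`, the size of the tree is `2 ^ r` times a polynomial.
-/

set_option autoImplicit false

namespace Pool.Agent.Results.MP_4a4383_lc.FirefighterOnTrees

open Pool.Agent.NPC Pool.Agent.K9h83.FF

/-- On trees, Saving `k` vertices is solvable in time `2 ^ O(√k log k)` times a polynomial, which is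
subexponential in `k`; under the exponential time hypothesis neither Saving all but `k` vertices
nor maximum `k`-vertex protection is solvable in time `2 ^ o(k)` times a polynomial. -/
theorem result :
    (Sublinear (fun k => 2 * (Nat.sqrt (2 * k) + 2) * (Nat.log 2 (k + 1) + 1)) ∧
      Decides (fun k => 2 * (Nat.sqrt (2 * k) + 2) * (Nat.log 2 (k + 1) + 1))
        (fun k : ℕ => k) Saving) ∧
    (ETH → ∀ g : ℕ → ℕ, Sublinear g → ¬ Decides g (fun k : ℕ => k) SavingAllBut) ∧
    (ETH → ∀ g : ℕ → ℕ, Sublinear g →
      ¬ Decides g (fun x : ℕ × ℕ => x.1) (fun p x => Protection p x.1 x.2)) :=
  ⟨⟨gSave_sublinear, save_decides save_math⟩, fun h _ hg => saving_all_but h hg,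
    fun h _ hg => protection h hg⟩

end Pool.Agent.Results.MP_4a4383_lc.FirefighterOnTrees
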